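import Mathlib

/-!
# Primes without solutions of `2 ^ a + 2 ^ b + 1 ≡ 0` on given algebraic relations (MP_33899d_nt)

Let `G ∈ ℤ[X]` be nonzero.  We show that there are infinitely many primes `p` such that
`p ∣ 2 ^ a + 2 ^ b + 1` excludes `p ∣ G (2 ^ a)`.

Idea.  Let `A` be the finite set of real numbers consisting of `√2`, the real and imaginary
parts of the complex roots `z` of `G`, the inverses of the imaginary parts, and `√|z.re|`,
`√|1 + z.re|`.  A Euclid type argument with a real algebraic integer `θ` generating `ℚ(A)` gives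
arbitrarily large primes `p ≡ 3 (mod 4)` with a ring homomorphism `Φ` from a subring of `ℝ`
containing `A` to `ℤ/p` (in other words the Frobenius at `p` acts like complex conjugation).
If `G (2 ^ a) ≡ 0`, then `(2 ^ a - Φ (z.re)) ^ 2 + Φ (z.im) ^ 2 = 0` for some root `z`; as `-1` is
not a square, `z` is real and `2 ^ a = Φ z` is a square, so `z > 0`; then `2 ^ b = - Φ (1 + z)`
is minus a square and a square, a contradiction.
-/

open Polynomial

namespace Pool.Agent.Results.MP_33899d_nt.AlgebraicRelations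

/-- A positive integer `≡ 3 (mod 4)` has a prime factor `≡ 3 (mod 4)`. -/
lemma exists_prime_three_mod_four (m : ℕ) (hm : m % 4 = 3) :
    ∃ p, p.Prime ∧ p ∣ m ∧ p % 4 = 3 := by
  induction m using Nat.strong_induction_on with
  | _ m ih =>
    have hm1 : m ≠ 1 := by omega
    obtain ⟨q, hq, hqm⟩ := Nat.exists_prime_and_dvd hm1
    obtain ⟨k, rfl⟩ := hqm
    have h0 : 0 < q * k := by omega
    have hk0 : 0 < k := by
      rcases Nat.eq_zero_or_pos k with h1 | h1
      · subst h1; simp at h0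
      · exact h1
    have hlt : k < q * k := by
      have := hq.two_le
      nlinarith
    have hmul : ((q % 4) * (k % 4)) % 4 = 3 := by rw [← Nat.mul_mod]; exact hm
    have h1 : q % 4 < 4 := Nat.mod_lt _ (by norm_num)
    have h2 : k % 4 < 4 := Nat.mod_lt _ (by norm_num)
    by_cases hq3 : q % 4 = 3
    · exact ⟨q, hq, Dvd.intro _ rfl, hq3⟩
    · have hk3 : k % 4 = 3 := by
        interval_cases h : q % 4 <;> interval_cases h' : k % 4 <;> simp_all
      obtain ⟨p, hp, hpk, hp3⟩ := ih k hlt hk3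
      exact ⟨p, hp, Dvd.dvd.mul_left hpk q, hp3⟩

/-- Euclid's argument: a monic integer polynomial which takes a negative value at some real
point has a root modulo some prime `p ≡ 3 (mod 4)` not dividing a given `M`. -/
lemma euclid (g : ℤ[X]) (hg : g.Monic) (hneg : ∃ x : ℝ, aeval x g < 0) (M : ℕ) (hM : 0 < M) :
    ∃ p : ℕ, p.Prime ∧ p % 4 = 3 ∧ ¬ p ∣ M ∧
      ∃ t : ZMod p, eval₂ (Int.castRingHom (ZMod p)) t g = 0 := by
  obtain ⟨x, hx⟩ := hneg
  set m : ℕ := 4 * M with hm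
  have hm4 : 4 ≤ m := by omega
  have hcont : Continuous fun y : ℝ => aeval y g := g.continuous_aeval
  have hopen : IsOpen {y : ℝ | aeval y g < 0} := isOpen_lt hcont continuous_const
  obtain ⟨ε, hε, hball⟩ := Metric.isOpen_iff.1 hopen x hx
  obtain ⟨k, hk⟩ : ∃ k : ℕ, (1 / (m : ℝ)) ^ k < ε :=
    exists_pow_lt_of_lt_one hε (by
      rw [div_lt_one (by positivity)]
      exact_mod_cast (by omega : 1 < m))
  have hmR : (0 : ℝ) < m := by positivity
  have hm1 : (1 : ℝ) < m := by exact_mod_cast (by omega : 1 < m)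
  set j : ℤ := ⌊x * (m : ℝ) ^ k⌋ with hj
  set a : ℤ := 1 + m * j with ha
  set b : ℤ := (m : ℤ) ^ (k + 1) with hb
  have hbR : (b : ℝ) = (m : ℝ) ^ (k + 1) := by simp [hb]
  have hb0 : (b : ℝ) ≠ 0 := by rw [hbR]; positivity
  have hy : aeval ((a : ℝ) / b) g < 0 := by
    apply hball
    rw [Metric.mem_ball, Real.dist_eq]
    have h1 : (a : ℝ) / b - x = (j - x * (m : ℝ) ^ k) / (m : ℝ) ^ k + 1 / (m : ℝ) ^ (k + 1) := by
      rw [hbR, ha]; push_cast; field_simp; ring
    have h2 : (j : ℝ) ≤ x * (m : ℝ) ^ k := Int.floor_le _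
    have h3 : x * (m : ℝ) ^ k < j + 1 := Int.lt_floor_add_one _
    have hpk : (0 : ℝ) < (m : ℝ) ^ k := by positivity
    have h4 : 1 / (m : ℝ) ^ (k + 1) ≤ 1 / (m : ℝ) ^ k :=
      one_div_le_one_div_of_le hpk (pow_le_pow_right₀ hm1.le (Nat.le_succ k))
    have h5 : (1 / (m : ℝ)) ^ k = 1 / (m : ℝ) ^ k := by rw [one_div_pow]
    have h6 : (0 : ℝ) < 1 / (m : ℝ) ^ (k + 1) := by positivity
    have h7 : -(1 / (m : ℝ) ^ k) < (j - x * (m : ℝ) ^ k) / (m : ℝ) ^ k := by
      rw [neg_lt_iff_pos_add, ← add_div]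
      apply div_pos _ hpk
      linarith
    have h8 : (j - x * (m : ℝ) ^ k) / (m : ℝ) ^ k ≤ 0 :=
      div_nonpos_of_nonpos_of_nonneg (by linarith) hpk.le
    rw [h1, abs_lt]
    rw [h5] at hk
    constructor <;> linarith
  -- the homogenised value
  set n : ℤ := (g.scaleRoots b).eval a with hn
  have hnR : (n : ℝ) = (b : ℝ) ^ g.natDegree * aeval ((a : ℝ) / b) g := by
    have h := scaleRoots_eval₂_mul (p := g) (Int.castRingHom ℝ) ((a : ℝ) / b) b
    have h1 : (Int.castRingHom ℝ) b * ((a : ℝ) / b) = (Int.castRingHom ℝ) a := by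
      simp; field_simp
    rw [h1, Polynomial.eval₂_at_apply] at h
    simpa [aeval_def] using h
  have hnneg : n < 0 := by
    have : (n : ℝ) < 0 := by
      rw [hnR]
      apply mul_neg_of_pos_of_neg _ hy
      rw [hbR]; positivity
    exact_mod_cast this
  have hnmod : (n : ZMod m) = 1 := by
    have h1 : (n : ZMod m) = eval (a : ZMod m) ((g.scaleRoots b).map (Int.castRingHom (ZMod m))) := by
      rw [hn, Polynomial.eval_map]
      have := Polynomial.eval₂_at_apply (p := g.scaleRoots b) (Int.castRingHom (ZMod m)) a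
      simp at this ⊢
    have : Fact (1 < m) := ⟨by omega⟩
    have hb' : (Int.castRingHom (ZMod m)) b = 0 := by
      simp [hb]
    have ha' : (a : ZMod m) = 1 := by simp [ha]
    rw [h1, map_scaleRoots _ _ _ (by simp [hg.leadingCoeff]), hb', ha']
    simp [scaleRoots_zero, (hg.map _).leadingCoeff]
  obtain ⟨l, hl⟩ : ∃ l : ℕ, (l : ℤ) = -n := ⟨(-n).toNat, by omega⟩
  have hlmod : (l : ZMod m) = -1 := by
    have : ((l : ℤ) : ZMod m) = ((-n : ℤ) : ZMod m) := by rw [hl]
    push_cast at this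
    rw [this, hnmod]
  have hl4 : l % 4 = 3 := by
    have h1 : (((l + 1 : ℕ) : ZMod m)) = 0 := by push_cast; rw [hlmod]; ring
    rw [ZMod.natCast_eq_zero_iff] at h1
    have : 4 ∣ l + 1 := dvd_trans (Dvd.intro _ rfl) h1
    omega
  obtain ⟨p, hp, hpl, hp3⟩ := exists_prime_three_mod_four l hl4
  have hpm : ¬ p ∣ m := by
    intro h
    have h1 : (((l + 1 : ℕ) : ZMod m)) = 0 := by push_cast; rw [hlmod]; ring
    rw [ZMod.natCast_eq_zero_iff] at h1
    have h2 : p ∣ 1 := (Nat.dvd_add_right hpl).1 (h.trans h1)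
    exact hp.one_lt.ne' (Nat.dvd_one.1 h2)
  have := Fact.mk hp
  have hb0' : (b : ZMod p) ≠ 0 := by
    rw [hb]; push_cast
    apply pow_ne_zero
    rw [Ne, ZMod.natCast_eq_zero_iff]
    exact hpm
  refine ⟨p, hp, hp3, fun h => hpm (h.mul_left 4), (a : ZMod p) / b, ?_⟩
  have h := scaleRoots_eval₂_mul (p := g) (Int.castRingHom (ZMod p)) ((a : ZMod p) / b) b
  have h1 : (Int.castRingHom (ZMod p)) b * ((a : ZMod p) / b) = (Int.castRingHom (ZMod p)) a := by
    simp; field_simp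
  rw [h1, Polynomial.eval₂_at_apply] at h
  have h2 : ((Int.castRingHom (ZMod p)) (eval a (g.scaleRoots b))) = 0 := by
    rw [← hn]
    have : (p : ℤ) ∣ n := by
      have : (p : ℤ) ∣ (l : ℤ) := by exact_mod_cast hpl
      rw [hl] at this
      exact (dvd_neg.1 this)
    simpa using (ZMod.intCast_zmod_eq_zero_iff_dvd n p).2 this
  rw [h2] at h
  rcases mul_eq_zero.1 h.symm with h3 | h3
  · exact absurd h3 (pow_ne_zero _ (by simpa using hb0'))
  · exact h3


/-- Two squares in `ZMod p`, `p ≡ 3 (mod 4)`, add up to zero only if both vanish. -/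
lemma sq_add_sq_zmod {p : ℕ} [Fact p.Prime] (h3 : p % 4 = 3) {x y : ZMod p}
    (h : x ^ 2 + y ^ 2 = 0) : x = 0 ∧ y = 0 := by
  have hy : y = 0 := by
    by_contra hy
    have h1 : IsSquare (-1 : ZMod p) := by
      refine ⟨x / y, ?_⟩
      field_simp
      linear_combination -h
    exact (ZMod.exists_sq_eq_neg_one_iff.1 h1) h3
  subst hy
  simpa using h

/-- The squared absolute value of `G(n)` as a product over the complex roots. -/
lemma eval_sq (G : ℤ[X]) (n : ℤ) :
    ((G.eval n : ℤ) : ℝ) ^ 2 = ((G.leadingCoeff : ℤ) : ℝ) ^ 2 *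
      ((G.map (Int.castRingHom ℂ)).roots.map
        fun z => ((n : ℝ) - z.re) ^ 2 + z.im ^ 2).prod := by
  have hs : (G.map (Int.castRingHom ℂ)).Splits := IsAlgClosed.splits _
  have h1 := hs.eval_eq_prod_roots (n : ℂ)
  have h2 : eval (n : ℂ) (G.map (Int.castRingHom ℂ)) = ((G.eval n : ℤ) : ℂ) := by
    rw [Polynomial.eval_map]
    have := Polynomial.eval₂_at_apply (p := G) (Int.castRingHom ℂ) n
    simpa using this
  have h3 : (G.map (Int.castRingHom ℂ)).leadingCoeff = ((G.leadingCoeff : ℤ) : ℂ) := by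
    rw [Polynomial.leadingCoeff_map_of_injective (Int.castRingHom ℂ).injective_int]
    simp
  rw [h2, h3] at h1
  have h4 := congrArg Complex.normSq h1
  rw [map_mul, map_multiset_prod, Multiset.map_map] at h4
  have h5 : Complex.normSq ((G.eval n : ℤ) : ℂ) = ((G.eval n : ℤ) : ℝ) ^ 2 := by
    rw [← Complex.ofReal_intCast, Complex.normSq_ofReal]; ring
  have h6 : Complex.normSq ((G.leadingCoeff : ℤ) : ℂ) = ((G.leadingCoeff : ℤ) : ℝ) ^ 2 := by
    rw [← Complex.ofReal_intCast, Complex.normSq_ofReal]; ring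
  rw [h5, h6] at h4
  rw [h4]
  congr 2
  apply Multiset.map_congr rfl
  intro z _
  simp [Complex.normSq_apply]
  ring

/-- The minimal polynomial of a real algebraic integer takes a negative value. -/
lemma minpoly_neg {θ : ℝ} (hθ : IsIntegral ℤ θ) : ∃ x : ℝ, aeval x (minpoly ℤ θ) < 0 := by
  by_contra hcon
  push Not at hcon
  have hmin : IsLocalMin (fun x : ℝ => aeval x (minpoly ℤ θ)) θ := by
    apply Filter.Eventually.of_forall
    intro x
    simp only [minpoly.aeval]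
    exact hcon x
  have h1 := hmin.deriv_eq_zero
  rw [Polynomial.deriv_aeval] at h1
  have hQ : IsIntegral ℚ θ := hθ.tower_top
  have hmap : minpoly ℚ θ = (minpoly ℤ θ).map (algebraMap ℤ ℚ) :=
    minpoly.isIntegrallyClosed_eq_field_fractions' ℚ hθ
  have hsep : (minpoly ℚ θ).Separable := (minpoly.irreducible hQ).separable
  have h2 := hsep.aeval_derivative_ne_zero (minpoly.aeval ℚ θ)
  apply h2
  rw [hmap, Polynomial.derivative_map, Polynomial.aeval_map_algebraMap]
  exact h1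

/-- The reals `r` with `N r ∈ ℤ[θ]` for some nonzero integer `N`. -/
def fracSub (θ : ℝ) : Subalgebra ℚ ℝ where
  carrier := {r | ∃ N : ℤ, N ≠ 0 ∧ (N : ℝ) * r ∈ Algebra.adjoin ℤ ({θ} : Set ℝ)}
  mul_mem' := by
    rintro r s ⟨N, hN, hr⟩ ⟨N', hN', hs⟩
    refine ⟨N * N', mul_ne_zero hN hN', ?_⟩
    have := Subalgebra.mul_mem _ hr hs
    convert this using 1
    push_cast; ring
  add_mem' := by
    rintro r s ⟨N, hN, hr⟩ ⟨N', hN', hs⟩
    refine ⟨N * N', mul_ne_zero hN hN', ?_⟩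
    have h1 : ((N' : ℤ) : ℝ) * ((N : ℝ) * r) ∈ Algebra.adjoin ℤ ({θ} : Set ℝ) :=
      Subalgebra.mul_mem _ (intCast_mem _ N') hr
    have h2 : ((N : ℤ) : ℝ) * ((N' : ℝ) * s) ∈ Algebra.adjoin ℤ ({θ} : Set ℝ) :=
      Subalgebra.mul_mem _ (intCast_mem _ N) hs
    have := Subalgebra.add_mem _ h1 h2
    convert this using 1
    push_cast; ring
  algebraMap_mem' := by
    intro q
    refine ⟨q.den, by exact_mod_cast q.den_nz, ?_⟩
    have : ((q.den : ℤ) : ℝ) * (algebraMap ℚ ℝ q) = ((q.num : ℤ) : ℝ) := by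
      have := Rat.mul_den_eq_num q
      have h2 : ((q * q.den : ℚ) : ℝ) = ((q.num : ℚ) : ℝ) := by rw [this]
      simp only [eq_ratCast, Int.cast_natCast]
      push_cast at h2
      linarith
    rw [this]
    exact intCast_mem _ q.num

/-- A finite set of real algebraic numbers lies in `ℤ[θ][1/N]` for some real algebraic
integer `θ` and some nonzero integer `N`. -/
lemma exists_theta (A : Finset ℝ) (hA : ∀ a ∈ A, IsAlgebraic ℚ a) :
    ∃ θ : ℝ, IsIntegral ℤ θ ∧ ∃ N : ℤ, N ≠ 0 ∧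
      ∀ a ∈ A, (N : ℝ) * a ∈ Algebra.adjoin ℤ ({θ} : Set ℝ) := by
  set L : IntermediateField ℚ ℝ := IntermediateField.adjoin ℚ (A : Set ℝ) with hL
  have hfin : FiniteDimensional ℚ L :=
    IntermediateField.finiteDimensional_adjoin (fun a ha => (hA a (by simpa using ha)).isIntegral)
  obtain ⟨α, hα⟩ := Field.exists_primitive_element ℚ L
  have hαalg : IsAlgebraic ℚ (α : ℝ) := by
    have : IsAlgebraic ℚ α := Algebra.IsAlgebraic.isAlgebraic α
    exact this.algebraMap
  have hαZ : IsAlgebraic ℤ (α : ℝ) := (IsFractionRing.isAlgebraic_iff ℤ ℚ ℝ).2 hαalg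
  obtain ⟨c, hc, hint⟩ := hαZ.exists_integral_multiple
  refine ⟨c • (α : ℝ), hint, ?_⟩
  have hαmem : (α : ℝ) ∈ fracSub (c • (α : ℝ)) :=
    ⟨c, hc, by
      have : (c : ℝ) * (α : ℝ) = c • (α : ℝ) := by simp
      rw [this]
      exact Algebra.subset_adjoin rfl⟩
  have hle : ∀ a ∈ A, a ∈ fracSub (c • (α : ℝ)) := by
    intro a ha
    have haL : a ∈ L := IntermediateField.subset_adjoin ℚ _ (by simpa using ha)
    have h1 : (⟨a, haL⟩ : L) ∈ IntermediateField.adjoin ℚ ({α} : Set L) := by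
      rw [hα]; trivial
    have h2 : (⟨a, haL⟩ : L) ∈ Algebra.adjoin ℚ ({α} : Set L) := by
      have h3 := IntermediateField.adjoin_simple_toSubalgebra_of_isAlgebraic
        (Algebra.IsAlgebraic.isAlgebraic (R := ℚ) α)
      rw [← h3]
      exact h1
    rw [Algebra.adjoin_singleton_eq_range_aeval] at h2
    obtain ⟨P, hP⟩ := h2
    have h4 : a = aeval (α : ℝ) P := by
      have h5 : (L.val : L →+* ℝ) (aeval α P) = a := by
        have h6 := congrArg (L.val : L →+* ℝ) hP
        simpa using h6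
      rw [← h5]
      change (L.val : L →+* ℝ) (eval₂ _ α P) = eval₂ _ (α : ℝ) P
      rw [Polynomial.hom_eval₂]
      congr 1
    rw [h4]
    have h7 := Polynomial.aeval_mem_adjoin_singleton ℚ (p := P) (α : ℝ)
    have h8 : Algebra.adjoin ℚ ({(α : ℝ)} : Set ℝ) ≤ fracSub (c • (α : ℝ)) := by
      apply Algebra.adjoin_le
      rintro x hx
      rw [Set.mem_singleton_iff] at hx
      subst hx
      exact hαmem
    exact h8 h7
  choose! N hN0 hN using hle
  refine ⟨∏ a ∈ A, N a, Finset.prod_ne_zero_iff.2 hN0, ?_⟩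
  intro a ha
  rw [← Finset.mul_prod_erase A N ha]
  have : ((N a * ∏ x ∈ A.erase a, N x : ℤ) : ℝ) * a =
      (((∏ x ∈ A.erase a, N x : ℤ)) : ℝ) * ((N a : ℝ) * a) := by
    push_cast; ring
  rw [this]
  exact Subalgebra.mul_mem _ (intCast_mem _ _) (hN a ha)

/-- For finitely many real algebraic numbers there are arbitrarily large primes
`p ≡ 3 (mod 4)` and a ring homomorphism to `ZMod p` from a subring of `ℝ` containing them. -/
theorem exists_hom (A : Finset ℝ) (hA : ∀ a ∈ A, IsAlgebraic ℚ a) (B : ℕ) :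
    ∃ p : ℕ, B < p ∧ p.Prime ∧ p % 4 = 3 ∧
      ∃ R : Subring ℝ, (∀ a ∈ A, a ∈ R) ∧ Nonempty (R →+* ZMod p) := by
  obtain ⟨θ, hθ, N, hN, hNA⟩ := exists_theta A hA
  obtain ⟨p, hp, hp3, hpM, t, ht⟩ := euclid (minpoly ℤ θ) (minpoly.monic hθ) (minpoly_neg hθ)
    (N.natAbs * B.factorial) (Nat.mul_pos (Int.natAbs_pos.2 hN) (Nat.factorial_pos B))
  have := Fact.mk hp
  have hpN : ((N : ℤ) : ZMod p) ≠ 0 := by
    intro h
    apply hpM
    have : (p : ℤ) ∣ N := (ZMod.intCast_zmod_eq_zero_iff_dvd N p).1 h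
    exact (Int.natCast_dvd.1 this).mul_right _
  refine ⟨p, ?_, hp, hp3, ?_⟩
  · by_contra hle
    push Not at hle
    exact hpM (((Nat.dvd_factorial hp.pos hle)).mul_left _)
  -- the homomorphism on `T = ℤ[θ]`
  set T : Subalgebra ℤ ℝ := Algebra.adjoin ℤ ({θ} : Set ℝ) with hT
  let e : AdjoinRoot (minpoly ℤ θ) ≃ₐ[ℤ] T := minpoly.equivAdjoin hθ
  let φ₀ : AdjoinRoot (minpoly ℤ θ) →+* ZMod p := AdjoinRoot.lift (Int.castRingHom (ZMod p)) t ht
  let φ : T →+* ZMod p := φ₀.comp (e.symm : T →+* AdjoinRoot (minpoly ℤ θ))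
  let s : T := ((N : ℤ) : T)
  have hs : IsUnit (φ s) := by
    have : φ s = ((N : ℤ) : ZMod p) := map_intCast φ N
    rw [this]
    exact IsUnit.mk0 _ hpN
  have hs' : IsUnit (T.val.toRingHom s) := by
    have : T.val.toRingHom s = ((N : ℤ) : ℝ) := map_intCast _ N
    rw [this]
    exact IsUnit.mk0 _ (by exact_mod_cast hN)
  let ψ : Localization.Away s →+* ZMod p := IsLocalization.Away.lift s hs
  let ι : Localization.Away s →+* ℝ := IsLocalization.Away.lift s hs'
  have hι : Function.Injective ι := by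
    rw [injective_iff_map_eq_zero]
    intro z hz
    obtain ⟨n, a, ha⟩ := IsLocalization.Away.surj s z
    have h1 : ι (z * algebraMap T (Localization.Away s) (s ^ n)) = (a : ℝ) := by
      have := congrArg ι ha
      rw [map_pow]
      rw [this]
      exact IsLocalization.Away.lift_eq s hs' a
    rw [map_mul, hz, zero_mul] at h1
    have ha0 : a = 0 := Subtype.ext h1.symm
    rw [ha0, map_zero] at ha
    have hu : IsUnit ((algebraMap T (Localization.Away s) s) ^ n) :=
      (IsLocalization.Away.algebraMap_isUnit s).pow n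
    exact (hu.mul_left_eq_zero).1 ha
  let E : Localization.Away s ≃+* ι.range := RingEquiv.ofBijective ι.rangeRestrict
    ⟨fun x y h => hι (congrArg Subtype.val h), ι.rangeRestrict_surjective⟩
  refine ⟨ι.range, ?_, ⟨ψ.comp (E.symm : ι.range →+* Localization.Away s)⟩⟩
  intro a ha
  have hmem : (N : ℝ) * a ∈ T := hNA a ha
  obtain ⟨u, hu⟩ := IsLocalization.Away.algebraMap_isUnit (S := Localization.Away s) s
  refine ⟨algebraMap T (Localization.Away s) ⟨(N : ℝ) * a, hmem⟩ *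
    ((u⁻¹ : (Localization.Away s)ˣ) : Localization.Away s), ?_⟩
  have h1 : ι (algebraMap T (Localization.Away s) ⟨(N : ℝ) * a, hmem⟩) = (N : ℝ) * a :=
    IsLocalization.Away.lift_eq s hs' _
  have h2 : ι (algebraMap T (Localization.Away s) s) = (N : ℝ) := by
    have h3 : ι (algebraMap T (Localization.Away s) s) = T.val.toRingHom s :=
      IsLocalization.Away.lift_eq s hs' _
    rw [h3]
    exact map_intCast _ N
  have h3 : ι ((u⁻¹ : (Localization.Away s)ˣ) : Localization.Away s) * (N : ℝ) = 1 := by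
    rw [← h2, ← map_mul, ← hu, Units.inv_mul, map_one]
  rw [map_mul, h1]
  have hN' : (N : ℝ) ≠ 0 := by exact_mod_cast hN
  have h4 : ι ((u⁻¹ : (Localization.Away s)ˣ) : Localization.Away s) = (N : ℝ)⁻¹ :=
    eq_inv_of_mul_eq_one_left h3
  rw [h4]
  field_simp

/-- The real numbers attached to the complex roots of `G`. -/
noncomputable def data (G : ℤ[X]) : Finset ℝ :=
  {Real.sqrt 2} ∪ (G.map (Int.castRingHom ℂ)).roots.toFinset.biUnion fun z =>
    {z.re, z.im, z.im⁻¹, Real.sqrt |z.re|, Real.sqrt |1 + z.re|}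

lemma isAlgebraic_sqrt_abs {x : ℝ} (hx : IsAlgebraic ℚ x) : IsAlgebraic ℚ (Real.sqrt |x|) := by
  have h1 : IsAlgebraic ℚ |x| := by
    rcases abs_choice x with h | h <;> rw [h]
    · exact hx
    · exact hx.neg
  apply IsAlgebraic.of_pow (n := 2) (by norm_num)
  rw [Real.sq_sqrt (abs_nonneg x)]
  exact h1

lemma isAlgebraic_re_im {z : ℂ} (hz : IsAlgebraic ℚ z) :
    IsAlgebraic ℚ z.re ∧ IsAlgebraic ℚ z.im := by
  have hc : IsAlgebraic ℚ ((starRingEnd ℂ) z) := by
    obtain ⟨P, hP, hPz⟩ := hz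
    refine ⟨P, hP, ?_⟩
    have h := congrArg (starRingEnd ℂ) hPz
    rw [map_zero] at h
    rw [← h, aeval_def, aeval_def, Polynomial.hom_eval₂]
    congr 1
    exact Subsingleton.elim _ _
  have hI : IsAlgebraic ℚ Complex.I := by
    refine ⟨X ^ 2 + 1, ?_, by simp⟩
    intro h
    have := congrArg (eval 0) h
    simp at this
  have h2 : IsAlgebraic ℚ ((2 : ℂ)⁻¹) := by
    have : IsAlgebraic ℚ (algebraMap ℚ ℂ (2⁻¹)) := isAlgebraic_algebraMap _
    simpa using this
  constructor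
  · have h : IsAlgebraic ℚ ((z.re : ℝ) : ℂ) := by
      have h3 : ((z.re : ℝ) : ℂ) = (z + (starRingEnd ℂ) z) * (2 : ℂ)⁻¹ := by
        rw [Complex.re_eq_add_conj]; ring
      rw [h3]
      exact (hz.add hc).mul h2
    exact (isAlgebraic_algebraMap_iff (R := ℚ) (S := ℝ) (A := ℂ)
      Complex.ofReal_injective).1 h
  · have h : IsAlgebraic ℚ ((z.im : ℝ) : ℂ) := by
      have h3 : ((z.im : ℝ) : ℂ) = (z - (starRingEnd ℂ) z) * (2 : ℂ)⁻¹ * (-Complex.I) := by
        have h4 : (2 * Complex.I)⁻¹ = (2 : ℂ)⁻¹ * (-Complex.I) := by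
          rw [mul_inv, Complex.inv_I]
        rw [Complex.im_eq_sub_conj, div_eq_mul_inv, h4]
        ring
      rw [h3]
      exact ((hz.sub hc).mul h2).mul hI.neg
    exact (isAlgebraic_algebraMap_iff (R := ℚ) (S := ℝ) (A := ℂ)
      Complex.ofReal_injective).1 h

lemma data_algebraic (G : ℤ[X]) : ∀ a ∈ data G, IsAlgebraic ℚ a := by
  intro a ha
  rw [data, Finset.mem_union, Finset.mem_singleton, Finset.mem_biUnion] at ha
  rcases ha with rfl | ⟨z, hz, ha⟩
  · apply IsAlgebraic.of_pow (n := 2) (by norm_num)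
    rw [Real.sq_sqrt (by norm_num)]
    have : IsAlgebraic ℚ (algebraMap ℚ ℝ 2) := isAlgebraic_algebraMap _
    simpa using this
  · rw [Multiset.mem_toFinset] at hz
    have hzalg : IsAlgebraic ℚ z := by
      have h0 : (G.map (Int.castRingHom ℂ)) ≠ 0 := Polynomial.ne_zero_of_mem_roots hz
      have hz0 := (Polynomial.mem_roots h0).1 hz
      refine ⟨G.map (Int.castRingHom ℚ), ?_, ?_⟩
      · intro h
        apply h0
        have h2 := congrArg (Polynomial.map (algebraMap ℚ ℂ)) h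
        rw [Polynomial.map_map, Polynomial.map_zero] at h2
        rw [← h2]
        congr 1
      · rw [Polynomial.aeval_def, Polynomial.eval₂_map]
        rw [Polynomial.IsRoot.def, Polynomial.eval_map] at hz0
        rw [← hz0]
        congr 1
    obtain ⟨h1, h2⟩ := isAlgebraic_re_im hzalg
    have h3 : IsAlgebraic ℚ (1 + z.re) := (isAlgebraic_one).add h1
    simp only [Finset.mem_insert, Finset.mem_singleton] at ha
    rcases ha with rfl | rfl | rfl | rfl | rfl
    · exact h1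
    · exact h2
    · exact h2.inv
    · exact isAlgebraic_sqrt_abs h1
    · exact isAlgebraic_sqrt_abs h3

/-- The main step: infinitely many primes `p` such that `p ∣ 2 ^ a + 2 ^ b + 1` excludes
`p ∣ G (2 ^ a)`. -/
theorem main_poly (G : ℤ[X]) (hG : G ≠ 0) (B : ℕ) :
    ∃ p : ℕ, B < p ∧ p.Prime ∧ ∀ a b : ℕ, p ∣ 2 ^ a + 2 ^ b + 1 → ¬ (p : ℤ) ∣ G.eval (2 ^ a) := by
  obtain ⟨p, hBp, hp, hp3, R, hR, ⟨Φ⟩⟩ := exists_hom (data G) (data_algebraic G)
    (B + G.leadingCoeff.natAbs)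
  have := Fact.mk hp
  refine ⟨p, by omega, hp, ?_⟩
  intro a b hab hdvd
  have hsqrt2 : Real.sqrt 2 ∈ R := hR _ (by simp [data])
  have hroot : ∀ z ∈ (G.map (Int.castRingHom ℂ)).roots, z.re ∈ R ∧ z.im ∈ R ∧ z.im⁻¹ ∈ R ∧
      Real.sqrt |z.re| ∈ R ∧ Real.sqrt |1 + z.re| ∈ R := by
    intro z hz
    refine ⟨hR _ ?_, hR _ ?_, hR _ ?_, hR _ ?_, hR _ ?_⟩ <;>
    · rw [data, Finset.mem_union, Finset.mem_biUnion]
      exact Or.inr ⟨z, Multiset.mem_toFinset.2 hz, by simp⟩
  set s : R := ⟨Real.sqrt 2, hsqrt2⟩ with hs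
  have hs2 : s ^ 2 = 2 := by
    apply Subtype.ext
    have h : ((2 : R) : ℝ) = 2 := rfl
    rw [h, Subring.coe_pow]
    exact Real.sq_sqrt (by norm_num)
  have hΦs : (Φ s) ^ 2 = 2 := by
    rw [← map_pow, hs2]; exact map_ofNat Φ 2
  have hp2 : (2 : ZMod p) ≠ 0 := by
    intro h
    have : ((2 : ℕ) : ZMod p) = 0 := by exact_mod_cast h
    rw [ZMod.natCast_eq_zero_iff] at this
    have := (Nat.prime_dvd_prime_iff_eq hp Nat.prime_two).1 this
    omega
  have hΦs0 : Φ s ≠ 0 := by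
    intro h
    rw [h] at hΦs
    exact hp2 (by rw [← hΦs]; ring)
  -- the product formula
  have hprod : ∃ z ∈ (G.map (Int.castRingHom ℂ)).roots, ∃ (h1 : z.re ∈ R) (h2 : z.im ∈ R),
      (((2 : ZMod p) ^ a) - Φ ⟨z.re, h1⟩) ^ 2 + (Φ ⟨z.im, h2⟩) ^ 2 = 0 := by
    classical
    by_contra hcon
    push Not at hcon
    let f : ℂ → R := fun z => if h : z ∈ (G.map (Int.castRingHom ℂ)).roots then
      (((2 : R) ^ a) - ⟨z.re, (hroot z h).1⟩) ^ 2 + ⟨z.im, (hroot z h).2.1⟩ ^ 2 else 0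
    have hf : ((G.eval (2 ^ a) : ℤ) : R) ^ 2 = ((G.leadingCoeff : ℤ) : R) ^ 2 *
        ((G.map (Int.castRingHom ℂ)).roots.map f).prod := by
      apply Subtype.ext
      have h := eval_sq G (2 ^ a)
      have h' : ((((G.map (Int.castRingHom ℂ)).roots.map f).prod : R) : ℝ) =
          ((G.map (Int.castRingHom ℂ)).roots.map
            fun z => (((2 ^ a : ℤ) : ℝ) - z.re) ^ 2 + z.im ^ 2).prod := by
        have h1 := map_multiset_prod R.subtype ((G.map (Int.castRingHom ℂ)).roots.map f)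
        rw [Multiset.map_map] at h1
        refine h1.trans ?_
        congr 1
        apply Multiset.map_congr rfl
        intro z hz
        simp only [Function.comp, f]
        rw [dif_pos hz]
        push_cast
        rfl
      rw [Subring.coe_mul, h', Subring.coe_pow, Subring.coe_pow]
      exact h
    have h0 : Φ (((G.eval (2 ^ a) : ℤ) : R) ^ 2) = 0 := by
      rw [map_pow, map_intCast]
      have : ((G.eval (2 ^ a) : ℤ) : ZMod p) = 0 :=
        (ZMod.intCast_zmod_eq_zero_iff_dvd _ p).2 hdvd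
      rw [this]; ring
    rw [hf, map_mul, map_pow, map_intCast, map_multiset_prod, Multiset.map_map] at h0
    rcases mul_eq_zero.1 h0 with h1 | h1
    · have h2 : ((G.leadingCoeff : ℤ) : ZMod p) = 0 := by
        exact pow_eq_zero_iff (two_ne_zero) |>.1 h1
      rw [ZMod.intCast_zmod_eq_zero_iff_dvd] at h2
      have h3 := Int.natAbs_dvd_natAbs.2 h2
      have h4 : G.leadingCoeff.natAbs ≠ 0 := by
        simpa using hG
      have h5 := Nat.le_of_dvd (Nat.pos_of_ne_zero h4) h3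
      simp at h5
      omega
    · rw [Multiset.prod_eq_zero_iff, Multiset.mem_map] at h1
      obtain ⟨z, hz, hz0⟩ := h1
      apply hcon z hz (hroot z hz).1 (hroot z hz).2.1
      simp only [Function.comp, f] at hz0
      rw [dif_pos hz, map_add, map_pow, map_pow, map_sub, map_pow, map_ofNat] at hz0
      exact hz0
  obtain ⟨z, hz, h1, h2, hz0⟩ := hprod
  obtain ⟨e1, e2⟩ := sq_add_sq_zmod hp3 hz0
  have him : z.im = 0 := by
    by_contra hne
    have h3 := (hroot z hz).2.2.1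
    have h4 : (⟨z.im, h2⟩ : R) * ⟨z.im⁻¹, h3⟩ = 1 := by
      apply Subtype.ext
      simp [hne]
    have h5 := congrArg Φ h4
    rw [map_mul, e2, zero_mul, map_one] at h5
    exact zero_ne_one h5
  have e3 : Φ ⟨z.re, h1⟩ = (2 : ZMod p) ^ a := (sub_eq_zero.1 e1).symm
  have ha2 : ((Φ s) ^ a) ^ 2 = (2 : ZMod p) ^ a := by rw [← pow_mul, mul_comm, pow_mul, hΦs]
  have hb2 : ((Φ s) ^ b) ^ 2 = (2 : ZMod p) ^ b := by rw [← pow_mul, mul_comm, pow_mul, hΦs]
  have hab' : (2 : ZMod p) ^ a + 2 ^ b + 1 = 0 := by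
    have := (ZMod.natCast_eq_zero_iff (2 ^ a + 2 ^ b + 1) p).2 hab
    push_cast at this
    exact this
  rcases le_or_gt z.re 0 with hneg | hpos
  · have h3 := (hroot z hz).2.2.2.1
    have h4 : (⟨Real.sqrt |z.re|, h3⟩ : R) ^ 2 = - ⟨z.re, h1⟩ := by
      apply Subtype.ext
      push_cast
      rw [Real.sq_sqrt (abs_nonneg _), abs_of_nonpos hneg]
    have h5 := congrArg Φ h4
    rw [map_pow, map_neg, e3] at h5
    have h6 : ((Φ s) ^ a) ^ 2 + (Φ ⟨Real.sqrt |z.re|, h3⟩) ^ 2 = 0 := by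
      rw [ha2, h5]; ring
    exact pow_ne_zero a hΦs0 (sq_add_sq_zmod hp3 h6).1
  · have h3 := (hroot z hz).2.2.2.2
    have h4 : (⟨Real.sqrt |1 + z.re|, h3⟩ : R) ^ 2 = 1 + ⟨z.re, h1⟩ := by
      apply Subtype.ext
      push_cast
      rw [Real.sq_sqrt (abs_nonneg _), abs_of_pos (by linarith)]
    have h5 := congrArg Φ h4
    rw [map_pow, map_add, map_one, e3] at h5
    have h6 : ((Φ s) ^ b) ^ 2 + (Φ ⟨Real.sqrt |1 + z.re|, h3⟩) ^ 2 = 0 := by
      rw [hb2, h5]; linear_combination hab'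
    exact pow_ne_zero b hΦs0 (sq_add_sq_zmod hp3 h6).1

/-- The polynomial attached to the relation `u a + v b = w`, with `y = - 1 - x`. -/
noncomputable def linePoly (u v w : ℤ) : ℤ[X] :=
  X ^ u.toNat * (-1 - X) ^ v.toNat * C (2 ^ (-w).toNat) -
    X ^ (-u).toNat * (-1 - X) ^ (-v).toNat * C (2 ^ w.toNat)

lemma linePoly_ne_zero {u v : ℤ} (w : ℤ) (h : u ≠ 0 ∨ v ≠ 0) : linePoly u v w ≠ 0 := by
  intro h0
  by_cases hu : u = 0
  · have hv : v ≠ 0 := by
      rcases h with h | h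
      · exact absurd hu h
      · exact h
    have h1 := congrArg (eval (-1)) h0
    simp only [linePoly, eval_sub, eval_mul, eval_pow, eval_X, eval_C, eval_zero, hu] at h1
    rcases lt_or_gt_of_ne hv with hv' | hv'
    · have e1 : v.toNat = 0 := by omega
      have e2 : (-v).toNat ≠ 0 := by omega
      simp [e1, e2] at h1
    · have e1 : (-v).toNat = 0 := by omega
      have e2 : v.toNat ≠ 0 := by omega
      simp [e1, e2] at h1
  · have h1 := congrArg (eval 0) h0
    simp only [linePoly, eval_sub, eval_mul, eval_pow, eval_X, eval_C, eval_zero] at h1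
    rcases lt_or_gt_of_ne hu with hu' | hu'
    · have e1 : u.toNat = 0 := by omega
      have e2 : (-u).toNat ≠ 0 := by omega
      simp [e1, e2] at h1
    · have e1 : (-u).toNat = 0 := by omega
      have e2 : u.toNat ≠ 0 := by omega
      simp [e1, e2] at h1

lemma linePoly_eval {p a b : ℕ} (hab : p ∣ 2 ^ a + 2 ^ b + 1) {u v w : ℤ}
    (h : (orderOf (2 : ZMod p) : ℤ) ∣ u * a + v * b - w) :
    (p : ℤ) ∣ (linePoly u v w).eval (2 ^ a) := by
  have hab' : (2 : ZMod p) ^ a + 2 ^ b + 1 = 0 := by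
    have := (ZMod.natCast_eq_zero_iff (2 ^ a + 2 ^ b + 1) p).2 hab
    push_cast at this
    exact this
  have hb : (2 : ZMod p) ^ b = -1 - 2 ^ a := by linear_combination hab'
  have key : u.toNat * a + v.toNat * b + (-w).toNat ≡
      (-u).toNat * a + (-v).toNat * b + w.toNat [MOD orderOf (2 : ZMod p)] := by
    rw [← Int.natCast_modEq_iff]
    apply Int.ModEq.symm
    rw [Int.modEq_iff_dvd]
    push_cast
    have e1 : u = (u.toNat : ℤ) - ((-u).toNat : ℤ) := by omega
    have e2 : v = (v.toNat : ℤ) - ((-v).toNat : ℤ) := by omega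
    have e3 : w = (w.toNat : ℤ) - ((-w).toNat : ℤ) := by omega
    have e : (u.toNat : ℤ) * a + (v.toNat : ℤ) * b + ((-w).toNat : ℤ) -
        (((-u).toNat : ℤ) * a + ((-v).toNat : ℤ) * b + (w.toNat : ℤ)) = u * a + v * b - w := by
      conv_rhs => rw [e1, e2, e3]
      ring
    rw [e]
    exact h
  have hpow : (2 : ZMod p) ^ (u.toNat * a + v.toNat * b + (-w).toNat) =
      2 ^ ((-u).toNat * a + (-v).toNat * b + w.toNat) := by
    rw [← pow_mod_orderOf, key, pow_mod_orderOf]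
  rw [← ZMod.intCast_zmod_eq_zero_iff_dvd]
  rw [linePoly]
  simp only [eval_sub, eval_mul, eval_pow, eval_X, eval_C, eval_neg, eval_one]
  push_cast
  rw [← hb, ← pow_mul, ← pow_mul, ← pow_mul, ← pow_mul, ← pow_add, ← pow_add, ← pow_add,
    ← pow_add, mul_comm a, mul_comm b, mul_comm a, mul_comm b, hpow, sub_self]

/-- For every nonzero `G ∈ ℤ[X]` and every `J` there are infinitely many primes `p` such that
whenever `p ∣ 2 ^ a + 2 ^ b + 1`, then `p ∤ G (2 ^ a)`, and the exponents satisfy no linear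
relation `u a + v b ≡ w (mod ord_p(2))` with `|u|, |v|, |w| ≤ J` and `(u, v) ≠ (0, 0)`. -/
theorem result (G : ℤ[X]) (hG : G ≠ 0) (J : ℕ) :
    {p : ℕ | p.Prime ∧ ∀ a b : ℕ, p ∣ 2 ^ a + 2 ^ b + 1 →
      ¬ (p : ℤ) ∣ G.eval (2 ^ a) ∧
      ∀ u v w : ℤ, |u| ≤ J → |v| ≤ J → |w| ≤ J → (u ≠ 0 ∨ v ≠ 0) →
        ¬ (orderOf (2 : ZMod p) : ℤ) ∣ u * a + v * b - w}.Infinite := by
  classical
  apply Set.infinite_of_forall_exists_gt
  intro B
  let box : Finset (ℤ × ℤ × ℤ) := Finset.Icc (-(J : ℤ)) J ×ˢ Finset.Icc (-(J : ℤ)) J ×ˢ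
    Finset.Icc (-(J : ℤ)) J
  let F : ℤ × ℤ × ℤ → ℤ[X] := fun t =>
    if t.1 ≠ 0 ∨ t.2.1 ≠ 0 then linePoly t.1 t.2.1 t.2.2 else 1
  have hF : ∀ t ∈ box, F t ≠ 0 := by
    intro t _
    simp only [F]
    split_ifs with h
    · exact linePoly_ne_zero _ h
    · exact one_ne_zero
  obtain ⟨p, hBp, hp, h⟩ := main_poly (G * ∏ t ∈ box, F t)
    (mul_ne_zero hG (Finset.prod_ne_zero_iff.2 hF)) B
  refine ⟨p, ⟨hp, fun a b hab => ⟨fun hd => ?_, fun u v w hu hv hw huv hd => ?_⟩⟩, hBp⟩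
  · apply h a b hab
    rw [eval_mul]
    exact hd.mul_right _
  · apply h a b hab
    rw [eval_mul, eval_prod]
    apply Dvd.dvd.mul_left
    have hmem : (u, v, w) ∈ box := by
      simp only [box, Finset.mem_product, Finset.mem_Icc]
      exact ⟨abs_le.1 hu, abs_le.1 hv, abs_le.1 hw⟩
    apply Dvd.dvd.trans _ (Finset.dvd_prod_of_mem _ hmem)
    simp only [F]
    rw [if_pos huv]
    exact linePoly_eval hab hd

end Pool.Agent.Results.MP_33899d_nt.AlgebraicRelations
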