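import Mathlib

/-!
# Primes dividing no `2 ^ a + 2 ^ b + 1` with `a, b` close to each other (MP_33899d_nt)

For every `J` there is a modulus `M` such that every prime `p ≡ -1 (mod M)` divides no
`2 ^ a + 2 ^ b + 1` with `|a - b| ≤ J`; and there are infinitely many such primes.
-/

namespace Pool.Agent.Results.MP_33899d_nt.CloseExponents

open NumberTheorySymbols

/-- The modulus `8 * ∏_{j ≤ J} (2 ^ j + 1)`. -/
def modulus (J : ℕ) : ℕ := 8 * ∏ j ∈ Finset.range (J + 1), (2 ^ j + 1)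

lemma modulus_pos (J : ℕ) : 0 < modulus J := by
  unfold modulus
  positivity

/-- If `4 c ∣ p + 1` then `J(c | p) = 1`. -/
lemma jacobi_eq_one {c p : ℕ} (hc : 0 < c) (hp : 0 < p) (h : 4 * c ∣ p + 1) : J(c | p) = 1 := by
  have hodd : Odd p := by
    obtain ⟨k, hk⟩ := h
    rw [Nat.odd_iff]
    have : p + 1 = 2 * (2 * c * k) := by rw [hk]; ring
    omega
  have hmod : p % (4 * c) = 4 * c - 1 := by
    obtain ⟨k, hk⟩ := h
    have hk1 : 1 ≤ k := by
      rcases Nat.eq_zero_or_pos k with rfl | hk1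
      · omega
      · exact hk1
    obtain ⟨l, rfl⟩ : ∃ l, k = l + 1 := ⟨k - 1, by omega⟩
    have : p = (4 * c - 1) + 4 * c * l := by
      have : 4 * c * (l + 1) = 4 * c * l + 4 * c := by ring
      omega
    rw [this, Nat.add_mul_mod_self_left]
    exact Nat.mod_eq_of_lt (by omega)
  rw [jacobiSym.mod_right' c hodd, hmod]
  have hodd' : Odd (4 * c - 1) := by
    rw [Nat.odd_iff]; omega
  have h4 : J(4 * (c : ℤ) | 4 * c - 1) = 1 := by
    rw [show J(4 * (c : ℤ) | 4 * c - 1) = J(1 | 4 * c - 1) from ?_, jacobiSym.one_left]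
    apply jacobiSym.mod_left'
    have : (4 * (c : ℤ)) = 1 + ((4 * c - 1 : ℕ) : ℤ) := by
      push_cast [Nat.cast_sub (show 1 ≤ 4 * c by omega)]
      ring
    rw [this, Int.add_emod_right]
  have h5 : J((4 : ℤ) | 4 * c - 1) = 1 := by
    rw [show (4 : ℤ) = 2 ^ 2 by norm_num]
    apply jacobiSym.sq_one'
    have : Nat.Coprime 2 (4 * c - 1) := by
      rw [Nat.coprime_two_left]
      exact hodd'
    exact this
  rw [jacobiSym.mul_left, h5, one_mul] at h4
  exact h4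

lemma jacobi_neg_one {p : ℕ} (h : 4 ∣ p + 1) : J(-1 | p) = -1 := by
  have hodd : Odd p := by
    rw [Nat.odd_iff]; omega
  rw [jacobiSym.at_neg_one hodd]
  have : p % 4 = 3 := by omega
  exact ZMod.χ₄_nat_three_mod_four this

lemma dvd_modulus {J j : ℕ} (h : j ≤ J) : 8 * (2 ^ j + 1) ∣ modulus J := by
  unfold modulus
  apply mul_dvd_mul_left
  exact Finset.dvd_prod_of_mem (fun j => 2 ^ j + 1) (Finset.mem_range.2 (by omega))

lemma not_dvd_aux {J p a j : ℕ} (hp : 0 < p) (hM : modulus J ∣ p + 1) (hj : j ≤ J) :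
    ¬ p ∣ 2 ^ a + 2 ^ (a + j) + 1 := by
  intro hd
  have h8 : 8 * (2 ^ j + 1) ∣ p + 1 := (dvd_modulus hj).trans hM
  have h2 : J((2 : ℕ) | p) = 1 :=
    jacobi_eq_one (by norm_num) hp ((Dvd.intro _ rfl : 8 ∣ 8 * (2 ^ j + 1)).trans h8)
  have hc : J(((2 ^ j + 1 : ℕ) : ℤ) | p) = 1 :=
    jacobi_eq_one (by positivity) hp
      ((Dvd.intro 2 (by ring) : 4 * (2 ^ j + 1) ∣ 8 * (2 ^ j + 1)).trans h8)
  have hneg : J(-1 | p) = -1 :=
    jacobi_neg_one ((Dvd.intro (2 * (2 ^ j + 1)) (by ring) : 4 ∣ 8 * (2 ^ j + 1)).trans h8)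
  have h1 : J((2 : ℤ) ^ a * ((2 ^ j + 1 : ℕ) : ℤ) | p) = 1 := by
    rw [jacobiSym.mul_left, jacobiSym.pow_left, hc]
    have : J((2 : ℤ) | p) = 1 := by exact_mod_cast h2
    rw [this]; simp
  have h3 : J((2 : ℤ) ^ a * ((2 ^ j + 1 : ℕ) : ℤ) | p) = J(-1 | p) := by
    apply jacobiSym.mod_left'
    have hd' : (p : ℤ) ∣ (2 : ℤ) ^ a * ((2 ^ j + 1 : ℕ) : ℤ) - (-1) := by
      have := Int.natCast_dvd_natCast.2 hd
      push_cast at this ⊢
      convert this using 1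
      ring
    exact Int.ModEq.symm (Int.modEq_iff_dvd.2 hd')
  rw [h1, hneg] at h3
  norm_num at h3

theorem result (J : ℕ) : ∃ M : ℕ, 0 < M ∧ {p : ℕ | p.Prime ∧ M ∣ p + 1}.Infinite ∧
    ∀ p : ℕ, p.Prime → M ∣ p + 1 → ∀ a b : ℕ, a ≤ b + J → b ≤ a + J →
      ¬ p ∣ 2 ^ a + 2 ^ b + 1 := by
  refine ⟨modulus J, modulus_pos J, ?_, ?_⟩
  · have : NeZero (modulus J) := ⟨(modulus_pos J).ne'⟩
    have hu : IsUnit (-1 : ZMod (modulus J)) := isUnit_one.neg
    have h := Nat.infinite_setOfPred_prime_and_eq_mod hu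
    refine h.mono ?_
    rintro p ⟨hp1, hp2⟩
    refine ⟨hp1, ?_⟩
    rw [← CharP.cast_eq_zero_iff (ZMod (modulus J)) (modulus J)]
    push_cast
    rw [hp2]
    ring
  · intro p hp hM a b hab hba hd
    rcases le_total a b with h | h
    · obtain ⟨j, rfl⟩ := Nat.exists_eq_add_of_le h
      exact not_dvd_aux hp.pos hM (by omega) hd
    · obtain ⟨j, rfl⟩ := Nat.exists_eq_add_of_le h
      rw [add_comm (2 ^ (b + j)) (2 ^ b)] at hd
      exact not_dvd_aux hp.pos hM (by omega) hd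

end Pool.Agent.Results.MP_33899d_nt.CloseExponents
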