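import Mathlib

/-!
# Primes outside `T₂` from binary digit sums (MP_33899d_nt)

`InT2 p` says that the prime `p` divides some `2 ^ a + 2 ^ b + 1` with `a, b ≥ 1`.
If `2 ^ n - 1 = D * E` and a positive multiple `F` of `E` satisfies
`3 ^ Ω(D) * s₂(F) < n`, where `s₂` is the binary digit sum, then `D` has a prime factor
outside `T₂`.
-/

namespace Pool.Agent.Results.MP_33899d_nt.DigitSumCriterion

/-- The sum of the binary digits of `m`. -/
def binSum (m : ℕ) : ℕ := (Nat.digits 2 m).sum

/-- `p` divides some `2 ^ a + 2 ^ b + 1` with `a, b ≥ 1`. -/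
def InT2 (p : ℕ) : Prop := ∃ a b : ℕ, 1 ≤ a ∧ 1 ≤ b ∧ p ∣ 2 ^ a + 2 ^ b + 1

lemma binSum_zero : binSum 0 = 0 := by simp [binSum]

lemma binSum_one : binSum 1 = 1 := by simp [binSum]

lemma binSum_two_mul (m : ℕ) : binSum (2 * m) = binSum m := by
  unfold binSum
  rcases Nat.eq_zero_or_pos m with rfl | hm
  · simp
  · rw [Nat.digits_def' (by norm_num) (by omega)]
    simp

lemma binSum_two_mul_add_one (m : ℕ) : binSum (2 * m + 1) = binSum m + 1 := by
  unfold binSum
  rw [Nat.digits_def' (by norm_num) (by omega)]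
  have h1 : (2 * m + 1) % 2 = 1 := by omega
  have h2 : (2 * m + 1) / 2 = m := by omega
  rw [h1, h2]
  simp [add_comm]

lemma binSum_two_pow_mul (k m : ℕ) : binSum (2 ^ k * m) = binSum m := by
  induction k with
  | zero => simp
  | succ k ih => rw [pow_succ, mul_comm (2 ^ k) 2, mul_assoc, binSum_two_mul, ih]

lemma binSum_add_le (x y : ℕ) : binSum (x + y) ≤ binSum x + binSum y := by
  induction x using Nat.strong_induction_on generalizing y with
  | _ x ih =>
    rcases Nat.eq_zero_or_pos x with rfl | hx
    · simp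
    obtain ⟨a, ha⟩ : ∃ a, x = 2 * a ∨ x = 2 * a + 1 := ⟨x / 2, by omega⟩
    obtain ⟨b, hb⟩ : ∃ b, y = 2 * b ∨ y = 2 * b + 1 := ⟨y / 2, by omega⟩
    rcases ha with rfl | rfl <;> rcases hb with rfl | rfl
    · rw [← mul_add, binSum_two_mul, binSum_two_mul, binSum_two_mul]
      exact ih a (by omega) b
    · rw [show 2 * a + (2 * b + 1) = 2 * (a + b) + 1 by ring, binSum_two_mul,
        binSum_two_mul_add_one, binSum_two_mul_add_one]
      have := ih a (by omega) b
      omega
    · rw [show 2 * a + 1 + 2 * b = 2 * (a + b) + 1 by ring, binSum_two_mul,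
        binSum_two_mul_add_one, binSum_two_mul_add_one]
      have := ih a (by omega) b
      omega
    · rw [show 2 * a + 1 + (2 * b + 1) = 2 * (a + (b + 1)) by ring, binSum_two_mul,
        binSum_two_mul_add_one, binSum_two_mul_add_one]
      have h1 := ih a (by omega) (b + 1)
      -- `binSum (b + 1) ≤ binSum b + 1`
      have h2 : binSum (b + 1) ≤ binSum b + 1 := by
        clear h1 ih hx
        induction b using Nat.strong_induction_on with
        | _ b ihb =>
          obtain ⟨c, hc⟩ : ∃ c, b = 2 * c ∨ b = 2 * c + 1 := ⟨b / 2, by omega⟩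
          rcases hc with rfl | rfl
          · rw [binSum_two_mul_add_one, binSum_two_mul]
          · rw [show 2 * c + 1 + 1 = 2 * (c + 1) by ring, binSum_two_mul,
              binSum_two_mul_add_one]
            have := ihb c (by omega)
            omega
      omega

lemma binSum_mul_le (x y : ℕ) : binSum (x * y) ≤ binSum x * binSum y := by
  induction x using Nat.strong_induction_on generalizing y with
  | _ x ih =>
    rcases Nat.eq_zero_or_pos x with rfl | hx
    · simp [binSum_zero]
    obtain ⟨a, ha⟩ : ∃ a, x = 2 * a ∨ x = 2 * a + 1 := ⟨x / 2, by omega⟩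
    rcases ha with rfl | rfl
    · rw [mul_assoc, binSum_two_mul, binSum_two_mul]
      exact ih a (by omega) y
    · rw [show (2 * a + 1) * y = 2 * (a * y) + y by ring, binSum_two_mul_add_one]
      calc binSum (2 * (a * y) + y) ≤ binSum (2 * (a * y)) + binSum y := binSum_add_le _ _
        _ = binSum (a * y) + binSum y := by rw [binSum_two_mul]
        _ ≤ binSum a * binSum y + binSum y := Nat.add_le_add_right (ih a (by omega) y) _
        _ = (binSum a + 1) * binSum y := by ring

lemma binSum_two_pow (k : ℕ) : binSum (2 ^ k) = 1 := by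
  have := binSum_two_pow_mul k 1
  rwa [mul_one, binSum_one] at this

lemma binSum_trinomial_le (a b : ℕ) : binSum (2 ^ a + 2 ^ b + 1) ≤ 3 := by
  calc binSum (2 ^ a + 2 ^ b + 1) ≤ binSum (2 ^ a + 2 ^ b) + binSum 1 := binSum_add_le _ _
    _ ≤ binSum (2 ^ a) + binSum (2 ^ b) + binSum 1 :=
        Nat.add_le_add_right (binSum_add_le _ _) _
    _ = 3 := by rw [binSum_two_pow, binSum_two_pow, binSum_one]

lemma binSum_mersenne (n : ℕ) : binSum (2 ^ n - 1) = n := by
  induction n with
  | zero => simp [binSum_zero]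
  | succ n ih =>
    have h : 1 ≤ 2 ^ n := Nat.one_le_two_pow
    rw [show 2 ^ (n + 1) - 1 = 2 * (2 ^ n - 1) + 1 by rw [pow_succ]; omega,
      binSum_two_mul_add_one, ih]

/-- A positive multiple of `2 ^ n - 1` has binary digit sum at least `n`. -/
lemma le_binSum_of_dvd {n : ℕ} : ∀ {N : ℕ}, 0 < N → 2 ^ n - 1 ∣ N → n ≤ binSum N := by
  intro N
  induction N using Nat.strong_induction_on with
  | _ N ih =>
    intro hN hd
    rcases Nat.eq_zero_or_pos n with rfl | hn
    · exact Nat.zero_le _
    have h2n : 2 ≤ 2 ^ n := by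
      calc 2 = 2 ^ 1 := by norm_num
        _ ≤ 2 ^ n := Nat.pow_le_pow_right (by norm_num) hn
    rcases Nat.lt_or_ge N (2 ^ n) with hlt | hge
    · have h1 := Nat.le_of_dvd hN hd
      have h3 : N = 2 ^ n - 1 := by omega
      rw [h3, binSum_mersenne]
    · -- write `N = q * 2 ^ n + r`
      set q := N / 2 ^ n with hq
      set r := N % 2 ^ n with hr
      have hqr : 2 ^ n * q + r = N := Nat.div_add_mod N (2 ^ n)
      have hq1 : 1 ≤ q := by
        rw [hq]
        exact (Nat.one_le_div_iff (by positivity)).2 hge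
      have hr1 : r < 2 ^ n := Nat.mod_lt _ (by positivity)
      have hlt : q + r < N := by
        rw [← hqr]
        nlinarith
      have hdvd : 2 ^ n - 1 ∣ q + r := by
        have h3 : N = (2 ^ n - 1) * q + (q + r) := by
          obtain ⟨P, hP⟩ : ∃ P, 2 ^ n = P + 1 := ⟨2 ^ n - 1, by omega⟩
          rw [hP] at hqr ⊢
          rw [← hqr]
          simp only [Nat.add_sub_cancel]
          ring
        rw [h3] at hd
        exact (Nat.dvd_add_right (Dvd.intro _ rfl)).1 hd
      have h4 := ih (q + r) hlt (by omega) hdvd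
      -- binary digits: `binSum (q + r) ≤ binSum q + binSum r = binSum N`
      have h5 : ∀ (m q r : ℕ), r < 2 ^ m → binSum (2 ^ m * q + r) = binSum q + binSum r := by
        intro m
        induction m with
        | zero =>
          intro q r hr
          have : r = 0 := by omega
          subst this
          simp [binSum_zero]
        | succ m ihm =>
          intro q r hr
          obtain ⟨a, ha⟩ : ∃ a, r = 2 * a ∨ r = 2 * a + 1 := ⟨r / 2, by omega⟩
          rcases ha with rfl | rfl
          · rw [show 2 ^ (m + 1) * q + 2 * a = 2 * (2 ^ m * q + a) by ring, binSum_two_mul,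
              binSum_two_mul, ihm q a (by rw [pow_succ] at hr; omega)]
          · rw [show 2 ^ (m + 1) * q + (2 * a + 1) = 2 * (2 ^ m * q + a) + 1 by ring,
              binSum_two_mul_add_one, binSum_two_mul_add_one,
              ihm q a (by rw [pow_succ] at hr; omega)]
            ring
      have h6 := h5 n q r hr1
      rw [hqr] at h6
      have h7 := binSum_add_le q r
      omega

/-- A number all of whose prime factors lie in `T₂` has a positive multiple with binary digit
sum at most `3 ^ Ω`. -/
lemma exists_multiple (L : List ℕ) (h : ∀ p ∈ L, InT2 p) :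
    ∃ T, 0 < T ∧ L.prod ∣ T ∧ binSum T ≤ 3 ^ L.length := by
  induction L with
  | nil => exact ⟨1, by norm_num, by simp, by simp [binSum_one]⟩
  | cons p L ih =>
    obtain ⟨T, hT0, hT1, hT2⟩ := ih fun q hq => h q (List.mem_cons_of_mem _ hq)
    obtain ⟨a, b, -, -, hab⟩ := h p List.mem_cons_self
    refine ⟨(2 ^ a + 2 ^ b + 1) * T, by positivity, ?_, ?_⟩
    · rw [List.prod_cons]
      exact mul_dvd_mul hab hT1
    · calc binSum ((2 ^ a + 2 ^ b + 1) * T) ≤ binSum (2 ^ a + 2 ^ b + 1) * binSum T :=
          binSum_mul_le _ _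
        _ ≤ 3 * 3 ^ L.length := Nat.mul_le_mul (binSum_trinomial_le a b) hT2
        _ = 3 ^ (p :: L).length := by rw [List.length_cons, pow_succ]; ring

/-- If `2 ^ n - 1 = D * E` and some positive multiple `F` of `E` has
`3 ^ Ω(D) * s₂(F) < n`, then `D` has a prime factor outside `T₂`. -/
theorem result (n D E F : ℕ) (hDE : D * E = 2 ^ n - 1) (hF : 0 < F) (hEF : E ∣ F)
    (h : 3 ^ ArithmeticFunction.cardFactors D * binSum F < n) :
    ∃ p : ℕ, p.Prime ∧ p ∣ D ∧ ¬ InT2 p := by
  have hn : 0 < n := by omega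
  have hpos : 0 < 2 ^ n - 1 := by
    have : 2 ≤ 2 ^ n := by
      calc 2 = 2 ^ 1 := by norm_num
        _ ≤ 2 ^ n := Nat.pow_le_pow_right (by norm_num) hn
    omega
  have hD : D ≠ 0 := by
    rintro rfl
    simp at hDE
    omega
  by_contra hcon
  push Not at hcon
  obtain ⟨T, hT0, hT1, hT2⟩ := exists_multiple D.primeFactorsList (fun p hp =>
    hcon p (Nat.prime_of_mem_primeFactorsList hp) (Nat.dvd_of_mem_primeFactorsList hp))
  rw [Nat.prod_primeFactorsList hD] at hT1
  rw [ArithmeticFunction.cardFactors_apply] at h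
  have h1 : 2 ^ n - 1 ∣ T * F := by
    rw [← hDE]
    exact mul_dvd_mul hT1 hEF
  have h2 := le_binSum_of_dvd (Nat.mul_pos hT0 hF) h1
  have h3 := binSum_mul_le T F
  have h4 : binSum T * binSum F ≤ 3 ^ D.primeFactorsList.length * binSum F :=
    Nat.mul_le_mul_right _ hT2
  omega

end Pool.Agent.Results.MP_33899d_nt.DigitSumCriterion
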