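import Pool.Agent.Lib.MP_33899d_ntN.FinalC

/-!
# Membership in `T₂` for primes of small order (MP_33899d_nt)

Let `p` be an odd prime and `n = ord_p(2)`, and suppose `9 p ^ 2 ≥ 2 ^ n`.  Then `p` divides some
`2 ^ a + 2 ^ b + 1` with `a, b ≥ 1` if and only if `n` is not coprime to `6`, or `p` divides one of
`2 ^ (3 k) + 2 ^ k + 1`, `2 ^ (5 k) + 2 ^ (2 k) + 1`, `2 ^ (6 k) + 2 ^ k + 1` for some `k ≥ 1`.

Idea of the proof, `n` coprime to `6`: if `p ∣ 2 ^ a + 2 ^ b + 1`, then `3 p` divides the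
determinant of the circulant matrix of `1 + X ^ a + X ^ b` modulo `X ^ n - 1`, which is the product
of the `1 + ζ ^ a + ζ ^ b`, `ζ ^ n = 1`.  An explicit polynomial `maj` of degree `8` satisfies
`log t ≤ maj t` on `(0, 9]`, and the coefficients `F(u, v)` of `maj (|1 + x + y| ^ 2)` are `≤ 0`
except for `F(0, 0) = 0.69287... < log 2` and the `(u, v)` for which the absolute values of
`u, v, u + v` are `{0,1,1}`, `{0,4,4}`, `{1,2,3}`, `{2,3,5}`, `{1,5,6}`.  The sum of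
`maj (|1 + ζ ^ a + ζ ^ b| ^ 2)` over `ζ` is `n` times the sum of the `F(u, v)` with
`u a + v b ≡ 0 (mod n)`.  So if there is no relation of the five types, the determinant is smaller
than `2 ^ (n / 2)`; the first two types are impossible, the others lead to the three trinomials.
-/

namespace Pool.Agent.Results.MP_33899d_nt.OrderCriterion

theorem result (p : ℕ) (hp : p.Prime) (hp2 : p ≠ 2)
    (h : 2 ^ orderOf (2 : ZMod p) ≤ 9 * p ^ 2) :
    (∃ a b : ℕ, 1 ≤ a ∧ 1 ≤ b ∧ p ∣ 2 ^ a + 2 ^ b + 1) ↔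
      (¬ (orderOf (2 : ZMod p)).Coprime 6 ∨
        ∃ k : ℕ, 1 ≤ k ∧ (p ∣ 2 ^ (3 * k) + 2 ^ k + 1 ∨ p ∣ 2 ^ (5 * k) + 2 ^ (2 * k) + 1 ∨
          p ∣ 2 ^ (6 * k) + 2 ^ k + 1)) :=
  Pool.Agent.Lib.MP_33899d_ntN.mainC hp hp2 h

end Pool.Agent.Results.MP_33899d_nt.OrderCriterion
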